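import Pool.Agent.helper33.CVX.Spec

set_option autoImplicit false

namespace Pool.Agent.CVX

open MvPolynomial

theorem CRV : CRV_stmt := by
  intro ι _ _ n J F i p V hp hV hF
  let f : Vr n → MvPolynomial (Fin 2) ℂ :=
    fun v => if v.1 = i then C (p v) * X 0 + C (V v) * X 1 else C (p v)
  have hev : ∀ (s : Fin 2 → ℂ) (v : Vr n), eval s (f v) =
      if v.1 = i then s 0 * p v + s 1 * V v else p v := by
    intro s v
    by_cases h : v.1 = i
    · simp only [f, if_pos h, map_add, map_mul, eval_C, eval_X]
      ring
    · simp only [f, if_neg h, eval_C]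
  refine ⟨⟨fun k => if k = i then 1 else 0, f, ?_, ?_, ?_, ⟨i, by simp⟩⟩, fun k => rfl,
    fun v => rfl⟩
  · intro v
    by_cases h : v.1 = i
    · simp only [f, if_pos h]
      refine IsHomogeneous.add ?_ ?_
      · have := (isHomogeneous_C (Fin 2) (p v)).mul (isHomogeneous_X ℂ (0 : Fin 2))
        simpa using this
      · have := (isHomogeneous_C (Fin 2) (V v)).mul (isHomogeneous_X ℂ (1 : Fin 2))
        simpa using this
    · simp only [f, if_neg h]
      exact isHomogeneous_C _ _
  · intro s hs k
    by_cases hk : k = i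
    · subst hk
      have h0 : s 0 ≠ 0 ∨ s 1 ≠ 0 := by
        by_contra hcon
        push Not at hcon
        apply hs
        funext j
        fin_cases j
        · exact hcon.1
        · exact hcon.2
      obtain ⟨a, ha⟩ := hV (s 0) (s 1) h0
      refine ⟨a, ?_⟩
      show eval s (f ⟨k, a⟩) ≠ 0
      rw [hev, if_pos rfl]
      exact ha
    · obtain ⟨a, ha⟩ := hp k
      refine ⟨a, ?_⟩
      show eval s (f ⟨k, a⟩) ≠ 0
      rw [hev, if_neg hk]
      exact ha
  · intro j
    apply MvPolynomial.funext
    intro s
    rw [map_zero]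
    have h1 : eval s (bind₁ f (F j)) = eval (fun v => eval s (f v)) (F j) := by
      have h3 := aeval_bind₁ (R := ℂ) s f (F j)
      rw [MvPolynomial.aeval_def, MvPolynomial.aeval_def] at h3
      simpa using h3
    rw [h1]
    have h2 : (fun v : Vr n => eval s (f v)) =
        fun v : Vr n => if v.1 = i then s 0 * p v + s 1 * V v else p v := funext (hev s)
    rw [h2]
    exact hF j (s 0) (s 1)

end Pool.Agent.CVX
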